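import Pool.Agent.Run7.h604.ZH.For

/-! The Gyárfás–Sumner conjecture holds for all forests, or for an exponentially small share of the
labelled trees. -/

set_option autoImplicit false

namespace Pool.Agent.Results.MP_763321_co.AllOrFewTrees

open Pool.Agent.Run7.h604.ZH

theorem result :
    (∀ (V : Type) (F : SimpleGraph V), Finite V → F.IsAcyclic → ChiBounding V F) ∨
    (∃ K κ : ℝ, 0 < κ ∧ ∀ n : ℕ, 1 ≤ n →
      share TreeConn n (fun T => ChiBounding (Fin n) T) ≤ K * Real.exp (-(κ * n))) :=
  gyarfas_sumner

end Pool.Agent.Results.MP_763321_co.AllOrFewTrees
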