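import Mathlib
import Pool.Agent.Run7.h728.Defs
import Pool.Agent.Run7.h728.GS

set_option autoImplicit false

/-!
# The Gyárfás–Sumner conjecture is equivalent to its dichromatic form

The dichromatic number `δ(G)` of a graph `G` is the least `k` such that for every orientation of `G`
the vertices can be coloured with `k` colours without a monochromatic directed cycle. Always
`δ ≤ χ`, and whether `χ` is bounded by a function of `δ` for all graphs is an open question of Erdős
and Neumann-Lara. For graphs without an induced forest `F` on `t` vertices we have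
`χ ≤ 2 ^ (80 (t + 1)) δ (log δ + 1) ^ 4`, with no condition on cliques. So the Gyárfás–Sumner
conjecture for `F` is equivalent to the statement with `δ` in place of `χ`, also in its polynomial
form.

Proof: the vertices are given random heights and the edges of the proper colouring are oriented such
that an acyclic set of large chromatic number would contain the forest, which is embedded leaf by
leaf along decreasing heights; see `Pool/Agent/Run7/h728`.
-/

open Run7.h728

namespace Pool.Agent.Results.MP_763321_co.DichromaticForm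

/-- The statement of the Gyárfás–Sumner conjecture for `F`: the graphs without induced `F` and
without clique on `k + 1` vertices have chromatic number at most `N`, where `N` depends on `k`. -/
def GyarfasSumner {t : ℕ} (F : SimpleGraph (Fin t)) : Prop :=
  ∀ k : ℕ, ∃ N : ℕ, ∀ (n : ℕ) (G : SimpleGraph (Fin n)), IsEmpty (F ↪g G) →
    G.CliqueFree (k + 1) → G.Colorable N

/-- The same statement for the dichromatic number. -/
def DichromaticGyarfasSumner {t : ℕ} (F : SimpleGraph (Fin t)) : Prop :=
  ∀ k : ℕ, ∃ N : ℕ, ∀ (n : ℕ) (G : SimpleGraph (Fin n)), IsEmpty (F ↪g G) →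
    G.CliqueFree (k + 1) → delta G ≤ N

/-- The polynomial Gyárfás–Sumner conjecture for `F`. -/
def PolynomialGyarfasSumner {t : ℕ} (F : SimpleGraph (Fin t)) : Prop :=
  ∃ a b : ℕ, ∀ (k n : ℕ) (G : SimpleGraph (Fin n)), IsEmpty (F ↪g G) →
    G.CliqueFree (k + 1) → G.Colorable (a * (k + 1) ^ b)

/-- The polynomial statement for the dichromatic number. -/
def PolynomialDichromaticGyarfasSumner {t : ℕ} (F : SimpleGraph (Fin t)) : Prop :=
  ∃ a b : ℕ, ∀ (k n : ℕ) (G : SimpleGraph (Fin n)), IsEmpty (F ↪g G) →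
    G.CliqueFree (k + 1) → delta G ≤ a * (k + 1) ^ b

theorem result (t : ℕ) (F : SimpleGraph (Fin t)) (hF : F.IsAcyclic) :
    (∀ (n : ℕ) (G : SimpleGraph (Fin n)), IsEmpty (F ↪g G) →
      (delta G : ℕ∞) ≤ G.chromaticNumber ∧
      G.chromaticNumber ≤
        ((2 ^ (80 * (t + 1)) * delta G * (Nat.log 2 (delta G) + 1) ^ 4 : ℕ) : ℕ∞)) ∧
    (GyarfasSumner F ↔ DichromaticGyarfasSumner F) ∧
    (PolynomialGyarfasSumner F ↔ PolynomialDichromaticGyarfasSumner F) := by
  refine ⟨?_, ⟨?_, ?_⟩, ⟨?_, ?_⟩⟩
  · intro n G hfree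
    constructor
    · have h : G.Colorable n := by simpa using G.colorable_of_fintype
      obtain ⟨q, hq⟩ : ∃ q : ℕ, G.chromaticNumber = q := by
        refine ⟨G.chromaticNumber.toNat, (ENat.natCast_toNat ?_).symm⟩
        exact SimpleGraph.chromaticNumber_ne_top_iff_exists.2 ⟨n, h⟩
      rw [hq]
      have : G.Colorable q := SimpleGraph.chromaticNumber_le_iff_colorable.1 hq.le
      exact_mod_cast delta_le_of_colorable G this
    · exact SimpleGraph.chromaticNumber_le_iff_colorable.2 (forest_free_bound t F hF G hfree)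
  · intro h k
    obtain ⟨N, hN⟩ := h k
    exact ⟨N, fun n G h1 h2 => delta_le_of_colorable G (hN n G h1 h2)⟩
  · intro h k
    obtain ⟨N, hN⟩ := h k
    refine ⟨2 ^ (80 * (t + 1)) * N * (Nat.log 2 N + 1) ^ 4, fun n G h1 h2 => ?_⟩
    refine (forest_free_bound t F hF G h1).mono ?_
    have h3 := hN n G h1 h2
    gcongr
  · rintro ⟨a, b, h⟩
    exact ⟨a, b, fun k n G h1 h2 => delta_le_of_colorable G (h k n G h1 h2)⟩
  · rintro ⟨a, b, h⟩
    refine ⟨2 ^ (80 * (t + 1)) * a * (a + 1) ^ 4, b + 4 * b, fun k n G h1 h2 => ?_⟩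
    refine (forest_free_bound t F hF G h1).mono ?_
    have h3 := h k n G h1 h2
    have h4 : Nat.log 2 (delta G) + 1 ≤ (a + 1) * (k + 1) ^ b := by
      have h5 : Nat.log 2 (delta G) ≤ delta G := Nat.log_le_self 2 _
      have h6 : 1 ≤ (k + 1) ^ b := Nat.one_le_pow _ _ (by omega)
      calc Nat.log 2 (delta G) + 1 ≤ a * (k + 1) ^ b + 1 * (k + 1) ^ b := by omega
        _ = (a + 1) * (k + 1) ^ b := by ring
    calc 2 ^ (80 * (t + 1)) * delta G * (Nat.log 2 (delta G) + 1) ^ 4
        ≤ 2 ^ (80 * (t + 1)) * (a * (k + 1) ^ b) * ((a + 1) * (k + 1) ^ b) ^ 4 := by gcongr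
      _ = 2 ^ (80 * (t + 1)) * a * (a + 1) ^ 4 * (k + 1) ^ (b + 4 * b) := by
        rw [mul_pow, ← pow_mul, pow_add]
        ring

end Pool.Agent.Results.MP_763321_co.DichromaticForm
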